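import Mathlib
import Pool.Agent.MP_785f4e_co.Defs
import Pool.Agent.MP_785f4e_co.Main

set_option autoImplicit false

namespace Pool.Agent.Results.MP_785f4e_co.Counterexample

open Pool.Agent.MP_785f4e_co

/-- There is an infinite, connected, locally finite, vertex-transitive graph whose survival
number is `3` while the unrestricted Voronoi count (the limit of the minima) is `4`. -/
theorem result :
    ∃ (V : Type) (G : SimpleGraph V), Infinite V ∧ G.Connected ∧
      (∀ v : V, (G.neighborSet v).Finite) ∧ (∀ u v : V, ∃ φ : G ≃g G, φ u = v) ∧
      survival G = 3 ∧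
      Filter.Tendsto (fun n : ℕ => (minCount G n : ℕ∞)) Filter.atTop (nhds 4) := by
  refine ⟨Vx, TG, Vx_infinite, TG_connected, TG_nbr_finite, TG_transitive, survival_TG, ?_⟩
  apply tendsto_const_nhds.congr'
  filter_upwards [Filter.eventually_ge_atTop 7573] with n hn
  rw [minCount_TG n hn]; rfl

end Pool.Agent.Results.MP_785f4e_co.Counterexample
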